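import Pool.Agent.U922.OL.Defs

/-!
# The moments of zeta over the heights with a given set of directions: definitions (helper922)
-/

set_option autoImplicit false

open Set MeasureTheory

namespace Pool.Agent.U922.DS

open Pool.Agent.U922.OL

/-- The heights `t` at which `ζ(1/2 + it)` lies on a line `e^{iφ} ℝ` with `φ ∈ Φ`. -/
def Dir (Φ : Set ℝ) : Set ℝ := {t | ∃ φ ∈ Φ, ∃ r : ℝ, z t = r * Complex.exp (φ * Complex.I)}

/-- The integral of `|ζ(1/2 + it)|^p` over the `t ∈ (a, b]` in `Dir Φ`. -/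
noncomputable def R (p : ℝ) (Φ : Set ℝ) (a b : ℝ) : ℝ :=
  ∫ t in a..b, (Dir Φ).indicator (fun t => ‖z t‖ ^ p) t

end Pool.Agent.U922.DS
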