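import Pool.Agent.U922.DS.Lin
import Pool.Agent.U922.DS.Defs

/-!
# Direction sets: the link with the phase (helper922)
-/

set_option autoImplicit false

open Filter Topology Set MeasureTheory

namespace Pool.Agent.U922.DS

open Pool.Agent.W188.QS Pool.Agent.W188.GP Pool.Agent.W188.MZ Pool.Agent.U922.OL

/-- lines through `0` and the square of the direction -/
lemma line_iff' {w : ℂ} (hw : w ≠ 0) {x : ℝ} (hx : w ^ 2 = (‖w‖ : ℂ) ^ 2 * Complex.exp (2 * Real.pi * x * Complex.I))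
    {Φ : Set ℝ} (hΦ : Φ ⊆ Ico 0 Real.pi) :
    (∃ φ ∈ Φ, ∃ r : ℝ, w = r * Complex.exp (φ * Complex.I)) ↔ Real.pi * Int.fract x ∈ Φ := by
  have hpi := Real.pi_pos
  have hn : ‖w‖ ≠ 0 := norm_ne_zero_iff.2 hw
  have hnc : (‖w‖ : ℂ) ≠ 0 := by exact_mod_cast hn
  have hfx : Complex.exp (2 * Real.pi * x * Complex.I) =
      Complex.exp (((Real.pi * Int.fract x : ℝ) : ℂ) * Complex.I) ^ 2 := by
    rw [← Complex.exp_nat_mul]
    rw [Complex.exp_eq_exp_iff_exists_int]
    refine ⟨⌊x⌋, ?_⟩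
    have : (x : ℂ) = (⌊x⌋ : ℂ) + (Int.fract x : ℝ) := by
      rw [← Complex.ofReal_intCast, ← Complex.ofReal_add, Int.floor_add_fract]
    rw [Complex.ofReal_mul]
    calc 2 * (Real.pi : ℂ) * x * Complex.I = 2 * (Real.pi : ℂ) * ((⌊x⌋ : ℂ) + (Int.fract x : ℝ)) * Complex.I := by
          rw [← this]
      _ = _ := by push_cast; ring
  constructor
  · rintro ⟨φ, hφ, r, hr⟩
    have hwn : ‖w‖ = |r| := by
      rw [hr, norm_mul, Complex.norm_exp_ofReal_mul_I, Complex.norm_real, Real.norm_eq_abs, mul_one]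
    have hr0 : (r : ℂ) ≠ 0 := by
      intro h
      rw [h, zero_mul] at hr
      exact hw hr
    have h1 : w ^ 2 = (‖w‖ : ℂ) ^ 2 * Complex.exp (φ * Complex.I) ^ 2 := by
      rw [hwn, ← Complex.ofReal_pow, sq_abs, hr, mul_pow]
      push_cast
      ring
    have h2 : Complex.exp (φ * Complex.I) ^ 2 =
        Complex.exp (((Real.pi * Int.fract x : ℝ) : ℂ) * Complex.I) ^ 2 := by
      rw [← hfx]
      apply mul_left_cancel₀ (pow_ne_zero 2 hnc)
      rw [← h1, hx]
    rw [← Complex.exp_nat_mul, ← Complex.exp_nat_mul, Complex.exp_eq_exp_iff_exists_int] at h2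
    obtain ⟨n, hn2⟩ := h2
    have h3 : φ = Real.pi * Int.fract x + n * Real.pi := by
      have h4 : ((2 * φ : ℝ) : ℂ) * Complex.I = ((2 * (Real.pi * Int.fract x + n * Real.pi) : ℝ) : ℂ) * Complex.I := by
        push_cast
        push_cast at hn2
        rw [← mul_assoc] at hn2
        rw [hn2]
        ring
      have h5 := mul_right_cancel₀ Complex.I_ne_zero h4
      have h6 : 2 * φ = 2 * (Real.pi * Int.fract x + n * Real.pi) := by exact_mod_cast h5
      linarith
    have h7 := hΦ hφ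
    have h8 := Int.fract_nonneg x
    have h9 := Int.fract_lt_one x
    have h10 : n = 0 := by
      have a1 : Real.pi * (Int.fract x + n) < Real.pi * 1 := by
        have := h7.2; rw [h3] at this; linarith
      have a2 : Real.pi * 0 ≤ Real.pi * (Int.fract x + n) := by
        have := h7.1; rw [h3] at this; linarith
      have a3 := lt_of_mul_lt_mul_left a1 hpi.le
      have a4 := le_of_mul_le_mul_left a2 hpi
      have a5 : (n : ℝ) < 1 := by linarith
      have a6 : (-1 : ℝ) < n := by linarith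
      have a7 : n < 1 := by exact_mod_cast a5
      have a8 : -1 < n := by exact_mod_cast a6
      omega
    rw [h10] at h3
    rw [h3] at hφ
    simpa using hφ
  · intro h
    refine ⟨_, h, ?_⟩
    set e : ℂ := Complex.exp (((Real.pi * Int.fract x : ℝ) : ℂ) * Complex.I) with he
    rw [hfx] at hx
    have h1 : w ^ 2 = ((‖w‖ : ℂ) * e) ^ 2 := by rw [hx, mul_pow]
    rcases sq_eq_sq_iff_eq_or_eq_neg.1 h1 with h2 | h2
    · exact ⟨‖w‖, h2⟩
    · refine ⟨-‖w‖, h2.trans ?_⟩
      push_cast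
      ring

/-- the square of the direction in terms of the argument -/
lemma sq_arg (w : ℂ) : w ^ 2 = (‖w‖ : ℂ) ^ 2 * Complex.exp (2 * Real.pi * (w.arg / Real.pi : ℝ) * Complex.I) := by
  have h := Complex.norm_mul_exp_arg_mul_I w
  have hpi : (Real.pi : ℂ) ≠ 0 := by exact_mod_cast Real.pi_ne_zero
  have e : (2 * Real.pi * (w.arg / Real.pi : ℝ) * Complex.I : ℂ) = (2 : ℕ) * (w.arg * Complex.I) := by
    push_cast
    field_simp
  rw [e, Complex.exp_nat_mul, ← mul_pow, h]

/-- the set of directions is measurable, up to zeros -/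
lemma dir_meas {Φ : Set ℝ} (hm : MeasurableSet Φ) (hΦ : Φ ⊆ Ico 0 Real.pi) (p : ℝ) (hp : 0 < p) :
    Measurable ((Dir Φ).indicator (fun t => ‖z t‖ ^ p)) := by
  have hz : Measurable z := by
    have h1 : Continuous z := by
      unfold z
      refine continuous_iff_continuousAt.2 fun t => ?_
      have h2 : (1 / 2 + t * Complex.I : ℂ) ≠ 1 := by
        intro h
        have := congrArg Complex.re h
        simp at this
      exact ContinuousAt.comp (g := riemannZeta) (f := fun t : ℝ => (1 / 2 + t * Complex.I : ℂ))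
        (differentiableAt_riemannZeta h2).continuousAt (by fun_prop)
    exact h1.measurable
  have hS : MeasurableSet {t : ℝ | Real.pi * Int.fract ((z t).arg / Real.pi) ∈ Φ} := by
    apply measurableSet_preimage _ hm
    have h2 : Measurable fun t => (z t).arg := Complex.measurable_arg.comp hz
    exact (measurable_fract.comp (h2.div_const _)).const_mul _
  have e : (Dir Φ).indicator (fun t => ‖z t‖ ^ p) =
      {t : ℝ | Real.pi * Int.fract ((z t).arg / Real.pi) ∈ Φ}.indicator (fun t => ‖z t‖ ^ p) := by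
    funext t
    by_cases h0 : z t = 0
    · have e0 : ‖z t‖ ^ p = 0 := by rw [h0, norm_zero, Real.zero_rpow hp.ne']
      simp only [indicator]
      split_ifs <;> simp [e0]
    · have h3 := line_iff' h0 (sq_arg (z t)) hΦ
      by_cases h4 : t ∈ Dir Φ
      · have h5 : t ∈ {t : ℝ | Real.pi * Int.fract ((z t).arg / Real.pi) ∈ Φ} := h3.1 h4
        rw [indicator_of_mem h4, indicator_of_mem h5]
      · have h5 : t ∉ {t : ℝ | Real.pi * Int.fract ((z t).arg / Real.pi) ∈ Φ} := fun h => h4 (h3.2 h)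
        rw [indicator_of_notMem h4, indicator_of_notMem h5]
  rw [e]
  exact ((zp_cont hp).measurable).indicator hS

lemma ind_nonneg (p : ℝ) (Φ : Set ℝ) (t : ℝ) : 0 ≤ (Dir Φ).indicator (fun t => ‖z t‖ ^ p) t :=
  indicator_nonneg (fun t _ => zp_nonneg p t) t

lemma ind_le (p : ℝ) (Φ : Set ℝ) (t : ℝ) : (Dir Φ).indicator (fun t => ‖z t‖ ^ p) t ≤ ‖z t‖ ^ p :=
  indicator_le_self' (fun t _ => zp_nonneg p t) t

lemma R_int {Φ : Set ℝ} (hm : MeasurableSet Φ) (hΦ : Φ ⊆ Ico 0 Real.pi) {p : ℝ} (hp : 0 < p) (a b : ℝ) :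
    IntervalIntegrable ((Dir Φ).indicator (fun t => ‖z t‖ ^ p)) volume a b := by
  refine ((zp_cont hp).intervalIntegrable a b).mono_fun (dir_meas hm hΦ p hp).aestronglyMeasurable ?_
  refine ae_of_all _ fun t => ?_
  show ‖(Dir Φ).indicator (fun t => ‖z t‖ ^ p) t‖ ≤ ‖‖z t‖ ^ p‖
  rw [Real.norm_of_nonneg (ind_nonneg p Φ t), Real.norm_of_nonneg (zp_nonneg p t)]
  exact ind_le p Φ t

lemma R_nonneg (p : ℝ) (Φ : Set ℝ) {a b : ℝ} (hab : a ≤ b) : 0 ≤ R p Φ a b :=
  intervalIntegral.integral_nonneg hab fun t _ => ind_nonneg p Φ t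

lemma R_add {Φ : Set ℝ} (hm : MeasurableSet Φ) (hΦ : Φ ⊆ Ico 0 Real.pi) {p : ℝ} (hp : 0 < p) (a b c : ℝ) :
    R p Φ a c = R p Φ a b + R p Φ b c :=
  (intervalIntegral.integral_add_adjacent_intervals (R_int hm hΦ hp a b) (R_int hm hΦ hp b c)).symm

lemma R_mono {Φ : Set ℝ} (hm : MeasurableSet Φ) (hΦ : Φ ⊆ Ico 0 Real.pi) {p : ℝ} (hp : 0 < p) {a b c d : ℝ}
    (h1 : c ≤ a) (h2 : a ≤ b) (h3 : b ≤ d) : R p Φ a b ≤ R p Φ c d := by
  apply intervalIntegral.integral_mono_interval h1 h2 h3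
  · exact Filter.Eventually.of_forall fun t => ind_nonneg p Φ t
  · exact R_int hm hΦ hp _ _

lemma R_le {Φ : Set ℝ} (hm : MeasurableSet Φ) (hΦ : Φ ⊆ Ico 0 Real.pi) {p : ℝ} (hp : 0 < p) {a b : ℝ}
    (hab : a ≤ b) : R p Φ a b ≤ ∫ t in a..b, ‖z t‖ ^ p :=
  intervalIntegral.integral_mono_on hab (R_int hm hΦ hp a b) ((zp_cont hp).intervalIntegrable a b)
    fun t _ => ind_le p Φ t

/-- the constant of the phase -/
lemma th0_exists : ∃ θ : ℝ, (XX (cp 100))⁻¹ = Complex.exp (2 * Real.pi * θ * Complex.I) := by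
  have hX : ‖XX (cp 100)‖ = 1 := a_line.2.1 100
  refine ⟨((XX (cp 100))⁻¹).arg / (2 * Real.pi), ?_⟩
  have h := Complex.norm_mul_exp_arg_mul_I ((XX (cp 100))⁻¹)
  rw [norm_inv, hX, inv_one, Complex.ofReal_one, one_mul] at h
  have hpi : (Real.pi : ℂ) ≠ 0 := by exact_mod_cast Real.pi_ne_zero
  rw [← h]
  congr 1
  rw [h]
  push_cast
  field_simp

noncomputable def th0 : ℝ := Classical.choose th0_exists

lemma th0_spec : (XX (cp 100))⁻¹ = Complex.exp (2 * Real.pi * th0 * Complex.I) := Classical.choose_spec th0_exists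

/-- the square of the direction of zeta in terms of the phase -/
lemma sq_phase {t : ℝ} (ht : 100 ≤ t) :
    z t ^ 2 = (‖z t‖ : ℂ) ^ 2 * Complex.exp (2 * Real.pi * (th0 - vv t : ℝ) * Complex.I) := by
  obtain ⟨-, -, -, -, -, -, -, -, -, -, hph, -, -⟩ := a_tau
  have hX : ‖XX (cp 100)‖ = 1 := a_line.2.1 100
  have hX0 : XX (cp 100) ≠ 0 := by
    intro h
    rw [h] at hX
    simp at hX
  have hfe : (starRingEnd ℂ) (z t) = XX (cp t) * z t := a_line.2.2.1 t (by linarith)
  have h2 : (‖z t‖ : ℂ) ^ 2 = XX (cp t) * z t ^ 2 := by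
    have h3 := Complex.mul_conj (z t)
    rw [hfe, Complex.normSq_eq_norm_sq] at h3
    push_cast at h3
    rw [← h3]; ring
  rw [h2, hph t ht]
  have e : Complex.exp (2 * Real.pi * vv t * Complex.I) * Complex.exp (2 * Real.pi * (th0 - vv t : ℝ) * Complex.I) =
      (XX (cp 100))⁻¹ := by
    rw [th0_spec, ← Complex.exp_add]
    congr 1
    push_cast
    ring
  calc z t ^ 2 = XX (cp 100) * (XX (cp 100))⁻¹ * z t ^ 2 := by rw [mul_inv_cancel₀ hX0, one_mul]
    _ = XX (cp 100) * (Complex.exp (2 * Real.pi * vv t * Complex.I) *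
          Complex.exp (2 * Real.pi * (th0 - vv t : ℝ) * Complex.I)) * z t ^ 2 := by rw [e]
    _ = _ := by ring

/-- the weight that belongs to a set of directions -/
noncomputable def GW (Φ : Set ℝ) (y : ℝ) : ℝ := Φ.indicator (fun _ => 1) (Real.pi * Int.fract (th0 - y))

lemma GW_wt {Φ : Set ℝ} (hm : MeasurableSet Φ) : Wt (GW Φ) where
  meas := by
    have h1 : Measurable fun y : ℝ => Real.pi * Int.fract (th0 - y) :=
      (measurable_fract.comp (measurable_const.sub measurable_id)).const_mul _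
    exact (measurable_const.indicator hm).comp h1
  per := by
    intro y
    unfold GW
    congr 2
    have : th0 - (y + 1) = th0 - y - 1 := by ring
    rw [this, Int.fract_sub_one]
  nn := fun y => indicator_nonneg (fun _ _ => zero_le_one) _
  le := fun y => indicator_le_self' (fun _ _ => zero_le_one) _

/-- the mean of the weight -/
lemma GW_mean {Φ : Set ℝ} (hm : MeasurableSet Φ) (hΦ : Φ ⊆ Ico 0 Real.pi) :
    ∫ y in (0 : ℝ)..1, GW Φ y = volume.real Φ / Real.pi := by
  have hpi := Real.pi_pos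
  set H : ℝ → ℝ := fun x => Φ.indicator (fun _ => (1 : ℝ)) (Real.pi * Int.fract x) with hH
  have hper : Function.Periodic H 1 := by
    intro x
    simp only [hH, Int.fract_add_one]
  have h1 : ∫ y in (0 : ℝ)..1, GW Φ y = ∫ x in (th0 - 1)..(th0 - 0), H x := by
    have := intervalIntegral.integral_comp_sub_left (a := 0) (b := 1) H th0
    rw [← this]
    rfl
  rw [h1, sub_zero]
  have h2 := hper.intervalIntegral_add_eq (th0 - 1) 0
  rw [sub_add_cancel, zero_add] at h2
  rw [h2]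
  have h3 : ∫ x in (0 : ℝ)..1, H x = ∫ x in (0 : ℝ)..1, Φ.indicator (fun _ => (1 : ℝ)) (Real.pi * x) := by
    rw [intervalIntegral.integral_of_le zero_le_one, intervalIntegral.integral_of_le zero_le_one,
      ← integral_Ico_eq_integral_Ioc, ← integral_Ico_eq_integral_Ioc]
    apply setIntegral_congr_fun measurableSet_Ico
    intro x hx
    simp only [hH]
    rw [Int.fract_eq_self.2 ⟨hx.1, hx.2⟩]
  rw [h3]
  have h4 := intervalIntegral.integral_comp_mul_left (a := 0) (b := 1)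
    (fun x => Φ.indicator (fun _ => (1 : ℝ)) x) hpi.ne'
  rw [h4, mul_zero, mul_one, intervalIntegral.integral_of_le hpi.le, ← integral_Ico_eq_integral_Ioc,
    setIntegral_indicator hm, inter_eq_self_of_subset_right hΦ, setIntegral_const, smul_eq_mul, smul_eq_mul,
    mul_one, inv_mul_eq_div]

/-- the restricted moment in terms of the weight -/
lemma R_eq {Φ : Set ℝ} (hΦ : Φ ⊆ Ico 0 Real.pi) {p : ℝ} (hp : 0 < p) {a b : ℝ} (ha : 100 ≤ a) (hab : a ≤ b) :
    R p Φ a b = ∫ t in a..b, GW Φ (vv t) * ‖z t‖ ^ p := by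
  unfold R
  apply intervalIntegral.integral_congr
  intro t ht
  rw [uIcc_of_le hab] at ht
  by_cases h0 : z t = 0
  · have e0 : ‖z t‖ ^ p = 0 := by rw [h0, norm_zero, Real.zero_rpow hp.ne']
    simp only [e0, mul_zero, indicator]
    split_ifs <;> rfl
  · have h3 := line_iff' h0 (sq_phase (ha.trans ht.1)) hΦ
    by_cases h4 : t ∈ Dir Φ
    · have h5 : Real.pi * Int.fract (th0 - vv t) ∈ Φ := h3.1 h4
      simp only [GW]
      rw [indicator_of_mem h4, indicator_of_mem h5, one_mul]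
    · have h5 : Real.pi * Int.fract (th0 - vv t) ∉ Φ := fun h => h4 (h3.2 h)
      simp only [GW]
      rw [indicator_of_notMem h4, indicator_of_notMem h5, zero_mul]

/-- **comparison for direction sets** -/
theorem cmpR {p : ℝ} (hp : 1 < p) : ∃ C T₀ : ℝ, 0 < C ∧ 800 ≤ T₀ ∧ ∀ (Φ : Set ℝ) (T : ℝ),
    MeasurableSet Φ → Φ ⊆ Ico 0 Real.pi → T₀ ≤ T →
    volume.real Φ * (∫ t in T..(8 * T), ‖z t‖ ^ p) ≤ C * R p Φ (T / 2) (16 * T) ∧
    R p Φ T (8 * T) ≤ C * (volume.real Φ * ∫ t in (T / 2)..(16 * T), ‖z t‖ ^ p) := by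
  obtain ⟨C, T₀, hC, hT₀, h⟩ := cmpG hp
  have hpi := Real.pi_gt_three
  have hp0 : 0 < p := by linarith
  refine ⟨Real.pi * C, T₀, by positivity, hT₀, fun Φ T hm hΦ hT => ?_⟩
  obtain ⟨h1, h2⟩ := h (GW Φ) T (GW_wt hm) hT
  rw [GW_mean hm hΦ] at h1 h2
  rw [R_eq hΦ hp0 (show (100 : ℝ) ≤ T / 2 by linarith) (by linarith),
    R_eq hΦ hp0 (show (100 : ℝ) ≤ T by linarith) (by linarith)]
  constructor
  · have h3 := mul_le_mul_of_nonneg_left h1 Real.pi_pos.le
    have e : Real.pi * (volume.real Φ / Real.pi * ∫ t in T..(8 * T), ‖z t‖ ^ p) =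
        volume.real Φ * ∫ t in T..(8 * T), ‖z t‖ ^ p := by field_simp
    rw [e] at h3
    refine h3.trans (le_of_eq ?_)
    ring
  · have hM : 0 ≤ volume.real Φ * ∫ t in (T / 2)..(16 * T), ‖z t‖ ^ p :=
      mul_nonneg measureReal_nonneg (int_nonneg p (by linarith))
    refine h2.trans ?_
    have e : C * (volume.real Φ / Real.pi * ∫ t in (T / 2)..(16 * T), ‖z t‖ ^ p) =
        C / Real.pi * (volume.real Φ * ∫ t in (T / 2)..(16 * T), ‖z t‖ ^ p) := by ring
    rw [e]
    apply mul_le_mul_of_nonneg_right _ hM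
    rw [div_le_iff₀ Real.pi_pos]
    nlinarith [mul_pos hC Real.pi_pos]

end Pool.Agent.U922.DS
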