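import Pool.Agent.U922.OL.Two

/-!
# Averages of the discrete moments against a periodic weight (helper922)
-/

set_option autoImplicit false

open Filter Topology Set MeasureTheory

namespace Pool.Agent.U922.DS

open Pool.Agent.W188.QS Pool.Agent.W188.GP Pool.Agent.W188.MZ Pool.Agent.U922.OL

/-- `W903.GP.CO.key` for locally integrable functions (the same proof) -/
theorem key (g : ℝ → ℝ) (hg : ∀ a b : ℝ, IntervalIntegrable g volume a b) (A B : ℝ) (hAB : A ≤ B) :
    IntervalIntegrable (fun γ : ℝ => ∑ n ∈ Finset.Ioc ⌊A - γ⌋ ⌊B - γ⌋, g (n + γ)) volume 0 1 ∧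
    ∫ γ in (0 : ℝ)..1, ∑ n ∈ Finset.Ioc ⌊A - γ⌋ ⌊B - γ⌋, g (n + γ) = ∫ y in A..B, g y := by
  set F : ℝ → ℝ := (Ioc A B).indicator g with hFdef
  have hF : ∀ a b : ℝ, IntervalIntegrable F volume a b := by
    intro a b
    rw [intervalIntegrable_iff]
    have h1 : IntegrableOn g (uIoc a b) volume := (intervalIntegrable_iff).1 (hg a b)
    exact Integrable.indicator h1 measurableSet_Ioc
  obtain ⟨m, hm⟩ : ∃ m : ℤ, m = ⌊A⌋ - 1 := ⟨_, rfl⟩
  obtain ⟨K, hK⟩ : ∃ K : ℕ, (K : ℤ) = ⌈B⌉ + 1 - m := by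
    have h1 : (⌊A⌋ : ℝ) ≤ A := Int.floor_le A
    have h2 : B ≤ ⌈B⌉ := Int.le_ceil B
    have h3 : ((⌊A⌋ : ℤ) : ℝ) ≤ (⌈B⌉ : ℤ) := by linarith
    have h4 : ⌊A⌋ ≤ ⌈B⌉ := by exact_mod_cast h3
    exact ⟨(⌈B⌉ + 1 - m).toNat, by rw [Int.toNat_of_nonneg]; omega⟩
  have hmA : (m : ℝ) ≤ A := by
    have h1 : (⌊A⌋ : ℝ) ≤ A := Int.floor_le A
    rw [hm]; push_cast; linarith
  have hMB : B ≤ (m : ℝ) + K := by
    have h2 : B ≤ ⌈B⌉ := Int.le_ceil B
    have h3 : (m : ℤ) + (K : ℤ) = ⌈B⌉ + 1 := by omega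
    have h4 : (m : ℝ) + (K : ℝ) = (⌈B⌉ : ℝ) + 1 := by exact_mod_cast h3
    linarith
  have hsum : ∀ γ ∈ Icc (0 : ℝ) 1, ∑ n ∈ Finset.Ioc ⌊A - γ⌋ ⌊B - γ⌋, g (n + γ) =
      ∑ n ∈ Finset.Ico m (m + (K : ℤ)), F (n + γ) := by
    intro γ hγ
    have h0 : ∀ n : ℤ, n ∈ Finset.Ioc ⌊A - γ⌋ ⌊B - γ⌋ ↔ (n : ℝ) + γ ∈ Ioc A B := by
      intro n
      rw [Finset.mem_Ioc, Int.floor_lt, Int.le_floor, mem_Ioc]
      constructor
      · rintro ⟨h1, h2⟩; exact ⟨by linarith, by linarith⟩
      · rintro ⟨h1, h2⟩; exact ⟨by linarith, by linarith⟩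
    have hsub : Finset.Ioc ⌊A - γ⌋ ⌊B - γ⌋ ⊆ Finset.Ico m (m + (K : ℤ)) := by
      intro n hn
      have h1 := (h0 n).1 hn
      rw [Finset.mem_Ico]
      constructor
      · have h2 : (m : ℝ) < n + 1 := by
          have h5 : (⌊A⌋ : ℝ) ≤ A := Int.floor_le A
          rw [hm]; push_cast
          have := h1.1; have := hγ.2; linarith
        have h3 : m < n + 1 := by exact_mod_cast h2
        omega
      · have h2 : (n : ℝ) < (m : ℝ) + K := by
          have h3 : (m : ℤ) + (K : ℤ) = ⌈B⌉ + 1 := by omega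
          have h4 : (m : ℝ) + (K : ℝ) = (⌈B⌉ : ℝ) + 1 := by exact_mod_cast h3
          have h5 : B ≤ ⌈B⌉ := Int.le_ceil B
          have := h1.2; have := hγ.1; linarith
        exact_mod_cast h2
    rw [← Finset.sum_subset hsub]
    · apply Finset.sum_congr rfl
      intro n hn
      rw [hFdef, indicator_of_mem ((h0 n).1 hn)]
    · intro n _ hn
      rw [hFdef, indicator_of_notMem]
      intro h; exact hn ((h0 n).2 h)
  have hterm : ∀ n : ℤ, IntervalIntegrable (fun γ : ℝ => F (n + γ)) volume 0 1 := by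
    intro n
    have h1 := (hF (n : ℝ) ((n : ℝ) + 1)).comp_add_left (n : ℝ)
    simpa using h1
  have hint : IntervalIntegrable (fun γ : ℝ => ∑ n ∈ Finset.Ico m (m + (K : ℤ)), F (n + γ)) volume 0 1 := by
    have h1 := IntervalIntegrable.sum (Finset.Ico m (m + (K : ℤ))) (f := fun (n : ℤ) (γ : ℝ) => F (n + γ))
      (μ := volume) (a := 0) (b := 1) (fun n _ => hterm n)
    have h2 : (∑ n ∈ Finset.Ico m (m + (K : ℤ)), fun γ : ℝ => F (n + γ)) =
        fun γ : ℝ => ∑ n ∈ Finset.Ico m (m + (K : ℤ)), F (n + γ) := by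
      funext γ; simp
    rw [h2] at h1
    exact h1
  refine ⟨?_, ?_⟩
  · refine hint.congr ?_
    intro γ hγ
    rw [uIoc_of_le zero_le_one] at hγ
    exact (hsum γ ⟨hγ.1.le, hγ.2⟩).symm
  · rw [intervalIntegral.integral_congr (g := fun γ : ℝ => ∑ n ∈ Finset.Ico m (m + (K : ℤ)), F (n + γ))
      (fun γ hγ => by
        rw [uIcc_of_le zero_le_one] at hγ
        exact hsum γ hγ)]
    rw [intervalIntegral.integral_finset_sum (fun n _ => hterm n)]
    have h3 : ∀ n ∈ Finset.Ico m (m + (K : ℤ)), ∫ γ in (0 : ℝ)..1, F ((n : ℝ) + γ) =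
        ∫ y in (n : ℝ)..((n : ℝ) + 1), F y := by
      intro n _
      rw [intervalIntegral.integral_comp_add_left (fun y => F y) (n : ℝ)]
      simp
    rw [Finset.sum_congr rfl h3, Pool.Agent.W903.GP.CO.sum_int F hF m K]
    rw [intervalIntegral.integral_of_le (by linarith), intervalIntegral.integral_of_le hAB]
    rw [hFdef, setIntegral_indicator measurableSet_Ioc]
    congr 2
    ext y
    simp only [mem_inter_iff, mem_Ioc]
    constructor
    · rintro ⟨_, h⟩; exact h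
    · rintro ⟨h1, h2⟩; exact ⟨⟨by linarith, by linarith⟩, h1, h2⟩

/-- weights: measurable, `1`-periodic, with values in `[0, 1]` -/
structure Wt (G : ℝ → ℝ) : Prop where
  meas : Measurable G
  per : Function.Periodic G 1
  nn : ∀ y, 0 ≤ G y
  le : ∀ y, G y ≤ 1

lemma Wt.bd {G : ℝ → ℝ} (hG : Wt G) (y : ℝ) : ‖G y‖ ≤ 1 := by
  rw [Real.norm_of_nonneg (hG.nn y)]
  exact hG.le y

lemma Wt.int {G : ℝ → ℝ} (hG : Wt G) (a b : ℝ) : IntervalIntegrable G volume a b := by
  rw [intervalIntegrable_iff]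
  exact Measure.integrableOn_of_bounded (M := 1) (by simp) hG.meas.aestronglyMeasurable
    (ae_of_all _ fun y => hG.bd y)

/-- a bounded measurable weight times a continuous function -/
lemma mul_int {G f : ℝ → ℝ} (hG : Measurable G) (hb : ∀ y, ‖G y‖ ≤ 1) (hf : Continuous f) (a b : ℝ) :
    IntervalIntegrable (fun y => G y * f y) volume a b := by
  rw [intervalIntegrable_iff]
  have h1 : IntegrableOn f (uIoc a b) volume := (intervalIntegrable_iff).1 (hf.intervalIntegrable a b)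
  exact h1.bdd_mul hG.aestronglyMeasurable (ae_of_all _ fun y => hb y)

/-- the average of the weighted discrete moments -/
theorem aver {G : ℝ → ℝ} (hG : Wt G) {p : ℝ} (hp : 0 < p) {a b : ℝ} (hab : a ≤ b) :
    IntervalIntegrable (fun γ => G γ * DD p γ a b) volume 0 1 ∧
    ∫ γ in (0 : ℝ)..1, G γ * DD p γ a b =
      1 / (2 * Real.pi) * ∫ t in a..b, G (vv t) * (ZZ t ^ p * lamE t) := by
  obtain ⟨hmono, hvc, hlc, hl1, hder, htv, hvt, htm, htc, -, -, -, -⟩ := a_tau
  have hc : Continuous fun y : ℝ => ZZ (tau y) ^ p := (ZZp_cont hp).comp htc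
  have hg : ∀ A B : ℝ, IntervalIntegrable (fun y : ℝ => G y * ZZ (tau y) ^ p) volume A B :=
    fun A B => mul_int hG.meas hG.bd hc A B
  obtain ⟨h1, h2⟩ := key (fun y : ℝ => G y * ZZ (tau y) ^ p) hg (vv a) (vv b) (hmono.monotone hab)
  have e : ∀ γ : ℝ, ∑ n ∈ Finset.Ioc ⌊vv a - γ⌋ ⌊vv b - γ⌋, G (n + γ) * ZZ (tau (n + γ)) ^ p =
      G γ * DD p γ a b := by
    intro γ
    unfold DD nd
    rw [Finset.mul_sum]
    apply Finset.sum_congr rfl
    intro n _
    congr 1
    have := hG.per.int_mul n γ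
    rw [mul_one] at this
    rw [add_comm]
    exact this
  simp only [e] at h1 h2
  refine ⟨h1, ?_⟩
  rw [h2, intervalIntegral.integral_of_le (hmono.monotone hab), intervalIntegral.integral_of_le hab]
  have him : vv '' Ioc a b = Ioc (vv a) (vv b) := by
    ext y
    constructor
    · rintro ⟨t, ⟨h3, h4⟩, rfl⟩
      exact ⟨hmono h3, hmono.monotone h4⟩
    · rintro ⟨h3, h4⟩
      refine ⟨tau y, ⟨?_, ?_⟩, hvt y⟩
      · rw [← hvt y] at h3
        exact hmono.lt_iff_lt.1 h3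
      · rw [← hvt y] at h4
        exact hmono.le_iff_le.1 h4
  rw [← him, integral_image_eq_integral_abs_deriv_smul measurableSet_Ioc
    (fun t _ => (hder t).hasDerivWithinAt) hmono.injective.injOn, ← integral_const_mul]
  apply integral_congr_ae
  refine ae_of_all _ fun t => ?_
  have hpos : 0 ≤ lamE t / (2 * Real.pi) := div_nonneg (by linarith [hl1 t]) (by positivity)
  simp only [smul_eq_mul, abs_of_nonneg hpos, htv]
  ring

/-- **comparison for a weight** -/
theorem cmpG {p : ℝ} (hp : 1 < p) : ∃ C T₀ : ℝ, 0 < C ∧ 800 ≤ T₀ ∧ ∀ (G : ℝ → ℝ) (T : ℝ), Wt G → T₀ ≤ T →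
    (∫ γ in (0 : ℝ)..1, G γ) * (∫ t in T..(8 * T), ‖z t‖ ^ p) ≤
      C * ∫ t in (T / 2)..(16 * T), G (vv t) * ‖z t‖ ^ p ∧
    ∫ t in T..(8 * T), G (vv t) * ‖z t‖ ^ p ≤
      C * ((∫ γ in (0 : ℝ)..1, G γ) * ∫ t in (T / 2)..(16 * T), ‖z t‖ ^ p) := by
  obtain ⟨C, T₀, hC, h⟩ := a_fin p hp
  have hp0 : 0 < p := by linarith
  obtain ⟨hmono, hvc, hlc, hl1, hder, htv, hvt, htm, htc, -, -, hlam, -⟩ := a_tau
  have hpi := Real.pi_pos
  refine ⟨4 * Real.pi * C, max T₀ 800, by positivity, le_max_right _ _, fun G T hG hT => ?_⟩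
  have h1 : T₀ ≤ T := (le_max_left _ _).trans hT
  have h2 : 800 ≤ T := (le_max_right _ _).trans hT
  have hlT : 6 ≤ Real.log T := by
    rw [Real.le_log_iff_exp_le (by linarith)]
    have h3 := Real.exp_one_lt_d9
    have h4 : Real.exp 6 = Real.exp 1 ^ 6 := by rw [← Real.exp_nat_mul]; norm_num
    rw [h4]
    have h5 : Real.exp 1 ^ 6 ≤ 2.7182818286 ^ 6 :=
      pow_le_pow_left₀ (Real.exp_pos 1).le h3.le 6
    refine h5.trans (le_trans ?_ h2)
    norm_num
  have hDI : ∀ a b : ℝ, a ≤ b → IntervalIntegrable (fun γ => G γ * DD p γ a b) volume 0 1 :=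
    fun a b hab => (aver hG hp0 hab).1
  have hGi := hG.int 0 1
  have hGn : 0 ≤ ∫ γ in (0 : ℝ)..1, G γ :=
    intervalIntegral.integral_nonneg zero_le_one fun y _ => hG.nn y
  have hW : Measurable fun t => G (vv t) := hG.meas.comp hvc.measurable
  have hWb : ∀ t, ‖G (vv t)‖ ≤ 1 := fun t => hG.bd _
  have hcz : Continuous fun t : ℝ => ‖z t‖ ^ p := zp_cont hp0
  have hcl : Continuous fun t : ℝ => ZZ t ^ p * lamE t := (ZZp_cont hp0).mul hlc
  set J : ℝ := ∫ γ in (0 : ℝ)..1, G γ with hJ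
  constructor
  · -- lower bound
    have h3 : J * (Real.log T * ∫ t in T..(8 * T), ‖z t‖ ^ p) ≤
        ∫ γ in (0 : ℝ)..1, C * (G γ * DD p γ (T / 2) (16 * T)) := by
      rw [hJ, ← intervalIntegral.integral_mul_const]
      apply intervalIntegral.integral_mono_on zero_le_one (hGi.mul_const _)
        ((hDI (T / 2) (16 * T) (by linarith)).const_mul C)
      intro γ _
      have h4 := mul_le_mul_of_nonneg_left (h T γ h1).1 (hG.nn γ)
      calc G γ * (Real.log T * ∫ t in T..(8 * T), ‖z t‖ ^ p) ≤ G γ * (C * DD p γ (T / 2) (16 * T)) := h4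
        _ = _ := by ring
    rw [intervalIntegral.integral_const_mul, (aver hG hp0 (show T / 2 ≤ 16 * T by linarith)).2] at h3
    have h4 : ∫ t in (T / 2)..(16 * T), G (vv t) * (ZZ t ^ p * lamE t) ≤
        ∫ t in (T / 2)..(16 * T), 2 * Real.log T * (G (vv t) * ‖z t‖ ^ p) := by
      apply intervalIntegral.integral_mono_on (by linarith) (mul_int hW hWb hcl _ _)
        ((mul_int hW hWb hcz _ _).const_mul _)
      intro t ht
      obtain ⟨-, h5⟩ := hlam t (by linarith [ht.1])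
      have h6 : Real.log t ≤ 2 * Real.log T := by
        have h7 : Real.log t ≤ Real.log (T ^ 2) := by
          apply Real.log_le_log (by linarith [ht.1])
          nlinarith [ht.2]
        rw [Real.log_pow] at h7
        exact_mod_cast h7
      have h8 : 0 ≤ G (vv t) * ‖z t‖ ^ p := mul_nonneg (hG.nn _) (zp_nonneg p t)
      calc G (vv t) * (ZZ t ^ p * lamE t) = lamE t * (G (vv t) * ‖z t‖ ^ p) := by
            rw [ZZ_z]; ring
        _ ≤ _ := mul_le_mul_of_nonneg_right (h5.trans h6) h8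
    rw [intervalIntegral.integral_const_mul] at h4
    set X := ∫ t in (T / 2)..(16 * T), G (vv t) * ‖z t‖ ^ p with hX
    set Y := ∫ t in T..(8 * T), ‖z t‖ ^ p with hY
    have hX0 : 0 ≤ X := intervalIntegral.integral_nonneg (by linarith) fun t _ =>
      mul_nonneg (hG.nn _) (zp_nonneg p t)
    have h5 : J * (Real.log T * Y) ≤ C * (1 / (2 * Real.pi) * (2 * Real.log T * X)) := by
      refine h3.trans ?_
      apply mul_le_mul_of_nonneg_left _ hC.le
      exact mul_le_mul_of_nonneg_left h4 (by positivity)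
    have h6 : Real.log T * (J * Y) ≤ Real.log T * (C / Real.pi * X) := by
      calc Real.log T * (J * Y) = J * (Real.log T * Y) := by ring
        _ ≤ _ := h5
        _ = _ := by field_simp
    have h7 := le_of_mul_le_mul_left h6 (by linarith)
    refine h7.trans ?_
    apply mul_le_mul_of_nonneg_right _ hX0
    rw [div_le_iff₀ hpi]
    have hpi2 := Real.pi_gt_three
    nlinarith [mul_pos hC hpi, mul_pos (mul_pos hC hpi) hpi]
  · have h3 : ∫ γ in (0 : ℝ)..1, G γ * DD p γ T (8 * T) ≤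
        J * (C * (Real.log T * ∫ t in (T / 2)..(16 * T), ‖z t‖ ^ p)) := by
      rw [hJ, ← intervalIntegral.integral_mul_const]
      apply intervalIntegral.integral_mono_on zero_le_one (hDI T (8 * T) (by linarith)) (hGi.mul_const _)
      intro γ _
      exact mul_le_mul_of_nonneg_left (h T γ h1).2 (hG.nn γ)
    rw [(aver hG hp0 (show T ≤ 8 * T by linarith)).2] at h3
    have h4 : ∫ t in T..(8 * T), Real.log T / 2 * (G (vv t) * ‖z t‖ ^ p) ≤
        ∫ t in T..(8 * T), G (vv t) * (ZZ t ^ p * lamE t) := by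
      apply intervalIntegral.integral_mono_on (by linarith) ((mul_int hW hWb hcz _ _).const_mul _)
        (mul_int hW hWb hcl _ _)
      intro t ht
      have h100 : 100 < t := by linarith [ht.1]
      obtain ⟨h5, -⟩ := hlam t h100.le
      obtain ⟨-, h6, -⟩ := lam_bounds a_line h100
      have h7 : Real.log T ≤ Real.log t := Real.log_le_log (by linarith) ht.1
      have h8 : 0 ≤ G (vv t) * ‖z t‖ ^ p := mul_nonneg (hG.nn _) (zp_nonneg p t)
      calc Real.log T / 2 * (G (vv t) * ‖z t‖ ^ p) ≤ lamE t * (G (vv t) * ‖z t‖ ^ p) := by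
            apply mul_le_mul_of_nonneg_right _ h8
            rw [h5]
            linarith
        _ = _ := by rw [ZZ_z]; ring
    rw [intervalIntegral.integral_const_mul] at h4
    set X := ∫ t in T..(8 * T), G (vv t) * ‖z t‖ ^ p with hX
    set Y := ∫ t in (T / 2)..(16 * T), ‖z t‖ ^ p with hY
    have h5 : 1 / (2 * Real.pi) * (Real.log T / 2 * X) ≤ J * (C * (Real.log T * Y)) :=
      le_trans (mul_le_mul_of_nonneg_left h4 (by positivity)) h3
    have h6 : Real.log T * X ≤ Real.log T * (4 * Real.pi * C * (J * Y)) := by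
      calc Real.log T * X = 4 * Real.pi * (1 / (2 * Real.pi) * (Real.log T / 2 * X)) := by field_simp; ring
        _ ≤ 4 * Real.pi * (J * (C * (Real.log T * Y))) := mul_le_mul_of_nonneg_left h5 (by positivity)
        _ = _ := by ring
    exact le_of_mul_le_mul_left h6 (by linarith)

end Pool.Agent.U922.DS
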