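import Pool.Agent.U922.DS.Dir
import Pool.Agent.U922.OL.Few
import Pool.Agent.U922.OL.Three

/-!
# Direction sets: orders of magnitude (helper922)
-/

set_option autoImplicit false

open Filter Topology Set MeasureTheory

namespace Pool.Agent.U922.DS

open Pool.Agent.U922.OL

/-- upper bounds for the moment and for its part over a set of directions are equivalent -/
theorem upper_iffR {p E : ℝ} (hp : 1 < p) (hE : 0 ≤ E) {Φ : Set ℝ} (hm : MeasurableSet Φ)
    (hΦ : Φ ⊆ Ico 0 Real.pi) (hpos : volume Φ ≠ 0) :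
    (∃ B : ℝ, ∀ T : ℝ, 2 ≤ T → ∫ t in (0 : ℝ)..T, ‖z t‖ ^ p ≤ B * (T * Real.log T ^ E)) ↔
    (∃ B : ℝ, ∀ T : ℝ, 2 ≤ T → R p Φ 0 T ≤ B * (T * Real.log T ^ E)) := by
  obtain ⟨C, T₀, hC, hT₀, h⟩ := cmpR hp
  have hp0 : 0 < p := by linarith
  have hv : 0 < volume.real Φ := by
    have hfin : volume Φ ≠ ⊤ := by
      apply ne_top_of_le_ne_top _ (measure_mono hΦ)
      simp
    exact ENNReal.toReal_pos hpos hfin
  constructor
  · rintro ⟨B, hB⟩
    exact ⟨B, fun T hT => (R_le hm hΦ hp0 (by linarith)).trans (hB T hT)⟩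
  · rintro ⟨B, hB⟩
    set c := volume.real Φ with hc
    have hd := dyad (F := fun x => P p x) (T1 := T₀) (K := c⁻¹ * (C * |B| * 2 * 2 ^ E)) (a := E)
      (by linarith) (by positivity) hE (fun x y _ hxy => P_mono hp0 hxy) (by
        intro T hT
        have hT2 : 6400 ≤ T := by linarith
        obtain ⟨h2, -⟩ := h Φ (T / 8) hm hΦ (by linarith)
        have e1 : 8 * (T / 8) = T := by ring
        have e2 : 16 * (T / 8) = 2 * T := by ring
        rw [e1, e2] at h2
        rw [P_add hp0 (T / 8) T]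
        have hlT : 0 < Real.log T := Real.log_pos (by linarith)
        have h3 : R p Φ (T / 8 / 2) (2 * T) ≤ |B| * (2 * T * (2 ^ E * Real.log T ^ E)) := by
          refine (R_mono hm hΦ hp0 (show (0 : ℝ) ≤ T / 8 / 2 by linarith) (by linarith) le_rfl).trans ?_
          refine (hB (2 * T) (by linarith)).trans ?_
          have hl2T : 0 ≤ Real.log (2 * T) := Real.log_nonneg (by linarith)
          have h5 : Real.log (2 * T) ^ E ≤ 2 ^ E * Real.log T ^ E := by
            rw [← rpow_two_mul hlT.le]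
            exact Real.rpow_le_rpow hl2T (log_two_mul (by linarith)) hE
          calc B * (2 * T * Real.log (2 * T) ^ E) ≤ |B| * (2 * T * Real.log (2 * T) ^ E) := by
                apply mul_le_mul_of_nonneg_right (le_abs_self B); positivity
            _ ≤ _ := by
                apply mul_le_mul_of_nonneg_left _ (abs_nonneg B)
                exact mul_le_mul_of_nonneg_left h5 (by linarith)
        have h4 := mul_le_mul_of_nonneg_left h3 hC.le
        set J := ∫ t in (T / 8)..T, ‖z t‖ ^ p with hJ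
        have e3 : C * (|B| * (2 * T * (2 ^ E * Real.log T ^ E))) =
            c * (c⁻¹ * (C * |B| * 2 * 2 ^ E) * (T * Real.log T ^ E)) := by
          field_simp
        rw [e3] at h4
        have h8 := le_of_mul_le_mul_left (h2.trans h4) hv
        linarith)
    exact finish (T1 := T₀) (by linarith) (P_nonneg (by linarith : (0 : ℝ) ≤ 8 * T₀))
      (K := 8 / 7 * (c⁻¹ * (C * |B| * 2 * 2 ^ E)))
      (by positivity) hE (fun x y _ hxy => P_mono hp0 hxy)
      (fun T hT => (hd T hT).trans (le_of_eq (by ring)))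

/-- lower bounds of the expected order, uniformly in the set of directions -/
theorem lowerR {p : ℝ} (hp : 1 < p) : ∃ c T₁ : ℝ, 0 < c ∧ ∀ (Φ : Set ℝ) (T : ℝ),
    MeasurableSet Φ → Φ ⊆ Ico 0 Real.pi → T₁ ≤ T →
    c * (volume.real Φ * (T * Real.log T ^ (p ^ 2 / 4))) ≤ R p Φ (T / 2) (16 * T) := by
  obtain ⟨C, T₀, hC, hT₀, h⟩ := cmpR hp
  have hp0 : 0 < p := by linarith
  obtain ⟨c, hc, hev⟩ := all_lower hp0
  obtain ⟨T₂, hT₂⟩ := eventually_atTop.1 hev
  refine ⟨C⁻¹ * c, max T₀ T₂, by positivity, fun Φ T hm hΦ hT => ?_⟩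
  have h1 : T₀ ≤ T := (le_max_left _ _).trans hT
  have h2 : T₂ ≤ T := (le_max_right _ _).trans hT
  obtain ⟨h3, -⟩ := h Φ T hm hΦ h1
  have h4 : c * (T * Real.log T ^ (p ^ 2 / 4)) ≤ ∫ t in T..(8 * T), ‖z t‖ ^ p :=
    (hT₂ T h2).trans (int_mono hp0 le_rfl (by linarith) (by linarith))
  have h5 := (mul_le_mul_of_nonneg_left h4 (measureReal_nonneg (μ := volume) (s := Φ))).trans h3
  calc C⁻¹ * c * (volume.real Φ * (T * Real.log T ^ (p ^ 2 / 4))) =
        C⁻¹ * (volume.real Φ * (c * (T * Real.log T ^ (p ^ 2 / 4)))) := by ring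
    _ ≤ C⁻¹ * (C * R p Φ (T / 2) (16 * T)) := mul_le_mul_of_nonneg_left h5 (by positivity)
    _ = _ := by field_simp

/-- upper bounds, uniformly in the set of directions -/
theorem upperR {p q : ℝ} (hp : 1 < p) (hq : 0 ≤ q)
    (hup : ∃ K : ℝ, 0 < K ∧ ∀ᶠ T : ℝ in atTop, ∫ t in T..(2 * T), ‖z t‖ ^ p ≤ K * (T * Real.log T ^ q)) :
    ∃ K T₁ : ℝ, 0 < K ∧ ∀ (Φ : Set ℝ) (T : ℝ),
    MeasurableSet Φ → Φ ⊆ Ico 0 Real.pi → T₁ ≤ T →
    R p Φ T (8 * T) ≤ K * (volume.real Φ * (T * Real.log T ^ q)) := by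
  obtain ⟨C, T₀, hC, hT₀, h⟩ := cmpR hp
  have hp0 : 0 < p := by linarith
  obtain ⟨K, hK, hev⟩ := hup
  obtain ⟨T₂, hT₂⟩ := eventually_atTop.1 hev
  refine ⟨C * (5 * (K * (8 * 2 ^ q))), max T₀ (2 * T₂), by positivity, fun Φ T hm hΦ hT => ?_⟩
  have h1 : T₀ ≤ T := (le_max_left _ _).trans hT
  have h2 : 2 * T₂ ≤ T := (le_max_right _ _).trans hT
  have hT800 : 800 ≤ T := hT₀.trans h1
  have hlT : 0 < Real.log T := Real.log_pos (by linarith)
  obtain ⟨-, h3⟩ := h Φ T hm hΦ h1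
  have hpc : ∀ S : ℝ, T / 2 ≤ S → S ≤ 8 * T → ∫ t in S..(2 * S), ‖z t‖ ^ p ≤
      K * (8 * 2 ^ q) * (T * Real.log T ^ q) := by
    intro S h3 h4
    refine (hT₂ S (by linarith)).trans ?_
    have h5 : Real.log S ≤ 2 * Real.log T := by
      have h7 : Real.log S ≤ Real.log (T ^ 2) := by
        apply Real.log_le_log (by linarith)
        nlinarith
      rw [Real.log_pow] at h7
      exact_mod_cast h7
    have h6 : Real.log S ^ q ≤ 2 ^ q * Real.log T ^ q := by
      rw [← rpow_two_mul hlT.le]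
      exact Real.rpow_le_rpow (Real.log_nonneg (by linarith)) h5 hq
    have h7 : S * Real.log S ^ q ≤ 8 * T * (2 ^ q * Real.log T ^ q) :=
      mul_le_mul h4 h6 (Real.rpow_nonneg (Real.log_nonneg (by linarith)) _) (by linarith)
    calc K * (S * Real.log S ^ q) ≤ K * (8 * T * (2 ^ q * Real.log T ^ q)) := mul_le_mul_of_nonneg_left h7 hK.le
      _ = _ := by ring
  have hsum : ∫ t in (T / 2)..(16 * T), ‖z t‖ ^ p ≤ 5 * (K * (8 * 2 ^ q) * (T * Real.log T ^ q)) := by
    have a1 := hpc (T / 2) le_rfl (by linarith)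
    have a2 := hpc T (by linarith) (by linarith)
    have a3 := hpc (2 * T) (by linarith) (by linarith)
    have a4 := hpc (4 * T) (by linarith) (by linarith)
    have a5 := hpc (8 * T) (by linarith) le_rfl
    rw [show 2 * (T / 2) = T by ring] at a1
    rw [show 2 * (2 * T) = 4 * T by ring] at a3
    rw [show 2 * (4 * T) = 8 * T by ring] at a4
    rw [show 2 * (8 * T) = 16 * T by ring] at a5
    have b1 := P_add hp0 (T / 2) T
    have b2 := P_add hp0 T (2 * T)
    have b3 := P_add hp0 (2 * T) (4 * T)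
    have b4 := P_add hp0 (4 * T) (8 * T)
    have b5 := P_add hp0 (8 * T) (16 * T)
    have b6 := P_add hp0 (T / 2) (16 * T)
    linarith
  refine h3.trans ?_
  have h4 := mul_le_mul_of_nonneg_left hsum (measureReal_nonneg (μ := volume) (s := Φ))
  calc C * (volume.real Φ * ∫ t in (T / 2)..(16 * T), ‖z t‖ ^ p) ≤
        C * (volume.real Φ * (5 * (K * (8 * 2 ^ q) * (T * Real.log T ^ q)))) := mul_le_mul_of_nonneg_left h4 hC.le
    _ = _ := by ring

/-- the fourth moment over dyadic intervals -/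
theorem four_upper : ∃ K : ℝ, 0 < K ∧ ∀ᶠ T : ℝ in atTop,
    ∫ t in T..(2 * T), ‖z t‖ ^ (4 : ℝ) ≤ K * (T * Real.log T ^ ((4 : ℝ) ^ 2 / 4)) := by
  have h := ingham
  have hc : (0 : ℝ) < 1 / (2 * Real.pi ^ 2) := by positivity
  have h1 : ∀ᶠ T : ℝ in atTop, M 2 T / Real.log T ^ (2 ^ 2) < 1 / (2 * Real.pi ^ 2) + 1 :=
    h.eventually_lt_const (by linarith)
  refine ⟨(1 / (2 * Real.pi ^ 2) + 1) * (2 * 2 ^ 4), by positivity, ?_⟩
  have h2 : Tendsto (fun T : ℝ => 2 * T) atTop atTop := tendsto_id.const_mul_atTop (by norm_num)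
  filter_upwards [h2.eventually h1, eventually_ge_atTop 2] with T hT hT2
  have hl2 : 0 < Real.log (2 * T) := Real.log_pos (by linarith)
  rw [div_lt_iff₀ (by positivity)] at hT
  have e1 : M 2 (2 * T) = (2 * T)⁻¹ * P 4 (2 * T) := by
    unfold M P
    congr 1
    apply intervalIntegral.integral_congr
    intro t _
    have : (4 : ℝ) = ((2 * 2 : ℕ) : ℝ) := by norm_num
    simp only []
    rw [this, Real.rpow_natCast]
  rw [e1, inv_mul_lt_iff₀ (by linarith)] at hT
  have h3 : ∫ t in T..(2 * T), ‖z t‖ ^ (4 : ℝ) ≤ P 4 (2 * T) :=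
    int_mono (by norm_num) (by linarith) (by linarith) le_rfl
  have hl : Real.log (2 * T) ≤ 2 * Real.log T := log_two_mul hT2
  have e : Real.log T ^ ((4 : ℝ) ^ 2 / 4) = Real.log T ^ 4 := by
    have : (4 : ℝ) ^ 2 / 4 = ((4 : ℕ) : ℝ) := by norm_num
    rw [this, Real.rpow_natCast]
  rw [e]
  have h4 : Real.log (2 * T) ^ (2 ^ 2) ≤ 2 ^ 4 * Real.log T ^ 4 := by
    rw [← mul_pow]
    exact pow_le_pow_left₀ hl2.le hl 4
  calc ∫ t in T..(2 * T), ‖z t‖ ^ (4 : ℝ) ≤ P 4 (2 * T) := h3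
    _ ≤ 2 * T * ((1 / (2 * Real.pi ^ 2) + 1) * Real.log (2 * T) ^ (2 ^ 2)) := hT.le
    _ ≤ 2 * T * ((1 / (2 * Real.pi ^ 2) + 1) * (2 ^ 4 * Real.log T ^ 4)) := by
        apply mul_le_mul_of_nonneg_left _ (by linarith)
        exact mul_le_mul_of_nonneg_left h4 (by positivity)
    _ = _ := by ring

end Pool.Agent.U922.DS
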